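import Pool.Agent.Y871.LW.Stm
import Pool.Agent.Y843.HS.Lfm
import Pool.Agent.Y843.HS.CorC

/-!
# Correlations of the weight for systems of polynomials (adapted from `Y843.HS.Lfm`)
-/

set_option autoImplicit false

namespace Pool.Agent.Y813.LW

open Finset
open Pool.Agent.H602R3.DHJ (av av_prod av_const av_mono av_nonneg av_add av_sub av_mul av_sum)
open Pool.Agent.Y727.PSP (rp)
open Pool.Agent.Y79.PSP.MK (rp_mem rp_inj av_abs_le)
open Pool.Agent.Y843.HS hiding Cor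
open Pool.Agent.Y871.LW (PC S_GAVP Ind nuS bx S_CORS)

/-! ### Pairs of independent homomorphisms -/

section pairs

variable {Y : Type} [AddCommGroup Y] [Fintype Y] {N : ℕ}

open Classical in
theorem card_fiber2 [hN : Fact N.Prime] (f g : Y →+ ZMod N) (h : Ind f g) (a b : ZMod N) :
    (univ.filter (fun y => f y = a ∧ g y = b)).card * N ^ 2 ≤ Fintype.card Y := by
  obtain ⟨⟨v, hfv, hgv⟩, w, hfw, hgw⟩ := h
  have h : ((univ.filter (fun y => f y = a ∧ g y = b)) ×ˢ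
      ((univ : Finset (ZMod N)) ×ˢ (univ : Finset (ZMod N)))).card ≤ (univ : Finset Y).card := by
    apply Finset.card_le_card_of_injOn (fun p => p.1 + p.2.1.val • v + p.2.2.val • w)
    · intro p _
      simp
    · rintro ⟨y, α, β⟩ hy ⟨y', α', β'⟩ hy' h
      simp only [coe_product, coe_filter, mem_univ, true_and, coe_univ, Set.mem_prod,
        Set.mem_ofPred_eq, Set.mem_univ, and_true] at hy hy' h
      have h2 := congrArg f h
      rw [map_add, map_add, map_add, map_add, map_nsmul, map_nsmul, map_nsmul, map_nsmul, hy.1,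
        hy'.1, hfw, smul_zero, smul_zero, add_zero, add_zero, nsmul_eq_mul, nsmul_eq_mul,
        ZMod.natCast_zmod_val, ZMod.natCast_zmod_val] at h2
      have h3 : α = α' := mul_right_cancel₀ hfv (add_left_cancel h2)
      subst h3
      have h4 := congrArg g h
      rw [map_add, map_add, map_add, map_add, map_nsmul, map_nsmul, map_nsmul, hy.2,
        hy'.2, hgv, smul_zero, add_zero, nsmul_eq_mul, nsmul_eq_mul,
        ZMod.natCast_zmod_val, ZMod.natCast_zmod_val] at h4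
      have h5 : β = β' := mul_right_cancel₀ hgw (add_left_cancel h4)
      subst h5
      have h6 : y = y' := add_right_cancel (add_right_cancel h)
      rw [h6]
  rw [card_product, card_product, card_univ, ZMod.card, card_univ] at h
  rw [pow_two]
  exact h

theorem sum_rp_le [NeZero N] (G : ℕ → ℝ) (hG : ∀ n, 0 ≤ G n) :
    ∑ a : ZMod N, G (rp a) ≤ ∑ n ∈ Icc 1 N, G n := by
  classical
  have h1 : ∑ a : ZMod N, G (rp a) = ∑ n ∈ (univ : Finset (ZMod N)).image rp, G n := by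
    rw [sum_image]
    intro a _ b _ h
    exact rp_inj h
  rw [h1]
  apply sum_le_sum_of_subset_of_nonneg
  · intro n hn
    rw [mem_image] at hn
    obtain ⟨a, _, rfl⟩ := hn
    rw [mem_Icc]
    exact rp_mem a
  · intro n _ _
    exact hG n

theorem av_pair_le [NeZero N] [Fact N.Prime] (f g : Y →+ ZMod N) (h : Ind f g)
    (F : ℕ → ℕ → ℝ) (hF : ∀ a b, 0 ≤ F a b) :
    av (fun y : Y => F (rp (f y)) (rp (g y))) ≤
      (∑ b ∈ Icc 1 N, ∑ a ∈ Icc 1 N, F a b) / (N : ℝ) ^ 2 := by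
  classical
  have hN : (0 : ℝ) < N := by exact_mod_cast Nat.pos_of_ne_zero (NeZero.ne N)
  have hY : (0 : ℝ) < Fintype.card Y := by exact_mod_cast Fintype.card_pos
  unfold av
  rw [div_le_div_iff₀ hY (by positivity)]
  have h1 : ∑ y : Y, F (rp (f y)) (rp (g y)) = ∑ b : ZMod N, ∑ a : ZMod N,
      ((univ.filter (fun y : Y => f y = a ∧ g y = b)).card : ℝ) * F (rp a) (rp b) := by
    have h2 : ∀ y : Y, F (rp (f y)) (rp (g y)) = ∑ b : ZMod N, ∑ a : ZMod N,
        if f y = a ∧ g y = b then F (rp a) (rp b) else 0 := by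
      intro y
      rw [Finset.sum_eq_single (g y), Finset.sum_eq_single (f y)]
      · rw [if_pos ⟨rfl, rfl⟩]
      · intro a _ ha
        rw [if_neg (fun h => ha h.1.symm)]
      · intro h; exact absurd (mem_univ _) h
      · intro b _ hb
        apply Finset.sum_eq_zero
        intro a _
        rw [if_neg (fun h => hb h.2.symm)]
      · intro h; exact absurd (mem_univ _) h
    simp_rw [h2]
    rw [sum_comm]
    apply sum_congr rfl
    intro b _
    rw [sum_comm]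
    apply sum_congr rfl
    intro a _
    rw [← sum_filter, sum_const, nsmul_eq_mul]
  rw [h1, sum_mul]
  have h3 : ∀ a b : ZMod N, ((univ.filter (fun y : Y => f y = a ∧ g y = b)).card : ℝ) *
      F (rp a) (rp b) * (N : ℝ) ^ 2 ≤ Fintype.card Y * F (rp a) (rp b) := by
    intro a b
    have h4 : ((univ.filter (fun y : Y => f y = a ∧ g y = b)).card : ℝ) * (N : ℝ) ^ 2 ≤
        Fintype.card Y := by
      exact_mod_cast card_fiber2 f g h a b
    calc ((univ.filter (fun y : Y => f y = a ∧ g y = b)).card : ℝ) * F (rp a) (rp b) * (N : ℝ) ^ 2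
        = (((univ.filter (fun y : Y => f y = a ∧ g y = b)).card : ℝ) * (N : ℝ) ^ 2) *
          F (rp a) (rp b) := by ring
      _ ≤ _ := mul_le_mul_of_nonneg_right h4 (hF _ _)
  calc ∑ b : ZMod N, (∑ a : ZMod N, ((univ.filter (fun y : Y => f y = a ∧ g y = b)).card : ℝ) *
        F (rp a) (rp b)) * (N : ℝ) ^ 2
      = ∑ b : ZMod N, ∑ a : ZMod N, ((univ.filter (fun y : Y => f y = a ∧ g y = b)).card : ℝ) *
        F (rp a) (rp b) * (N : ℝ) ^ 2 := by
        apply sum_congr rfl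
        intro b _
        rw [sum_mul]
    _ ≤ ∑ b : ZMod N, ∑ a : ZMod N, Fintype.card Y * F (rp a) (rp b) :=
        sum_le_sum fun b _ => sum_le_sum fun a _ => h3 a b
    _ = Fintype.card Y * ∑ b : ZMod N, ∑ a : ZMod N, F (rp a) (rp b) := by
        rw [mul_sum]
        apply sum_congr rfl
        intro b _
        rw [mul_sum]
    _ ≤ Fintype.card Y * ∑ b ∈ Icc 1 N, ∑ a ∈ Icc 1 N, F a b := by
        apply mul_le_mul_of_nonneg_left _ hY.le
        calc ∑ b : ZMod N, ∑ a : ZMod N, F (rp a) (rp b)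
            ≤ ∑ b : ZMod N, ∑ a ∈ Icc 1 N, F a (rp b) :=
              sum_le_sum fun b _ => sum_rp_le (fun a => F a (rp b)) (fun a => hF _ _)
          _ ≤ _ := sum_rp_le (fun b => ∑ a ∈ Icc 1 N, F a b)
              (fun b => sum_nonneg fun a _ => hF _ _)
    _ = _ := mul_comm _ _

variable {Z : ℕ → Finset ℕ} {s R : ℕ}

theorem Gd_mono {K K' : ℕ} (h : K ≤ K') (d : ℤ) : Gd K Z s R d ≤ Gd K' Z s R d := fac_mono h _

/-- the average of the collision factor -/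
theorem av_CollS [NeZero N] [Fact N.Prime] (K : ℕ) {M m : ℕ} (hm : m ≤ M)
    (f : Fin m → Y →+ ZMod N) (hf : ∀ i j, i ≠ j → Ind (f i) (f j)) (φ : ℕ → ℕ) {E : ℝ}
    (hE : ∀ h : ℤ, (∑ i ∈ Icc 1 N,
      (Gd (M ^ 2 * K * (1 + K) ^ M ^ 2) Z s R ((φ i : ℤ) - h) - 1)) / N ≤ E) :
    av (fun y : Y => Coll K Z s R (fun i => φ (rp (f i y))) - 1) ≤ M ^ 2 * E := by
  classical
  have hN : (0 : ℝ) < N := by exact_mod_cast Nat.pos_of_ne_zero (NeZero.ne N)
  have hg : ∀ d : ℤ, 0 ≤ Gd (M ^ 2 * K * (1 + K) ^ M ^ 2) Z s R d - 1 := fun d => by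
    linarith [one_le_Gd (Z := Z) (s := s) (R := R) (M ^ 2 * K * (1 + K) ^ M ^ 2) d]
  have hE0 : 0 ≤ E := by
    refine le_trans ?_ (hE 0)
    exact div_nonneg (sum_nonneg fun h _ => hg _) hN.le
  have hK : m ^ 2 * K * (1 + K) ^ m ^ 2 ≤ M ^ 2 * K * (1 + K) ^ M ^ 2 := by
    have h1 : m ^ 2 ≤ M ^ 2 := Nat.pow_le_pow_left hm 2
    exact Nat.mul_le_mul (Nat.mul_le_mul_right _ h1) (Nat.pow_le_pow_right (by omega) h1)
  calc av (fun y : Y => Coll K Z s R (fun i => φ (rp (f i y))) - 1)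
      ≤ av (fun y : Y => ∑ l ∈ (univ : Finset (Fin m)).offDiag,
        (Gd (M ^ 2 * K * (1 + K) ^ M ^ 2) Z s R
          ((φ (rp (f l.1 y)) : ℤ) - φ (rp (f l.2 y))) - 1)) := by
        apply av_mono
        intro y
        refine (Coll_sub_le K (fun i => φ (rp (f i y)))).trans ?_
        apply sum_le_sum
        intro l _
        exact sub_le_sub_right (Gd_mono hK _) 1
    _ = ∑ l ∈ (univ : Finset (Fin m)).offDiag, av (fun y : Y =>
        (Gd (M ^ 2 * K * (1 + K) ^ M ^ 2) Z s R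
          ((φ (rp (f l.1 y)) : ℤ) - φ (rp (f l.2 y))) - 1)) := by
        unfold av
        rw [sum_comm, sum_div]
    _ ≤ ∑ l ∈ (univ : Finset (Fin m)).offDiag, E := by
        apply sum_le_sum
        intro l hl
        refine (av_pair_le (f l.1) (f l.2) (hf l.1 l.2 (by simpa using hl))
          (fun a b => Gd (M ^ 2 * K * (1 + K) ^ M ^ 2) Z s R ((φ a : ℤ) - φ b) - 1)
          (fun a b => hg _)).trans ?_
        rw [div_le_iff₀ (by positivity)]
        calc ∑ b ∈ Icc 1 N, ∑ a ∈ Icc 1 N,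
              (Gd (M ^ 2 * K * (1 + K) ^ M ^ 2) Z s R ((φ a : ℤ) - φ b) - 1)
            ≤ ∑ b ∈ Icc 1 N, E * N := by
              apply sum_le_sum
              intro b _
              have := hE (φ b)
              rwa [div_le_iff₀ hN] at this
          _ = E * (N : ℝ) ^ 2 := by
              rw [sum_const, Nat.card_Icc, nsmul_eq_mul, Nat.add_sub_cancel]
              ring
    _ ≤ M ^ 2 * E := by
        rw [sum_const, nsmul_eq_mul]
        apply mul_le_mul_of_nonneg_right _ hE0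
        have h1 : (univ : Finset (Fin m)).offDiag.card ≤ M ^ 2 := by
          rw [offDiag_card, card_univ, Fintype.card_fin]
          calc m * m - m ≤ m * m := Nat.sub_le _ _
            _ ≤ M * M := Nat.mul_le_mul hm hm
            _ = M ^ 2 := (pow_two M).symm
        exact_mod_cast h1

end pairs

/-! ### Products -/

theorem pow_Coll_le {Z : ℕ → Finset ℕ} {s R : ℕ} (K L : ℕ) {m : ℕ} (u : Fin m → ℕ) :
    Coll K Z s R u ^ L ≤ Coll (L * K * (1 + K) ^ L) Z s R u := by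
  classical
  unfold Coll
  rw [← prod_pow]
  apply prod_le_prod
  · intro p _
    have := one_le_fac K p
    positivity
  · intro p hp
    apply pow_fac_le
    rw [mem_filter] at hp
    have hp1 := hp.1
    unfold Pr at hp1
    rw [mem_filter] at hp1
    exact hp1.2.one_lt.le

theorem abs_prod_sub_one {ι : Type} (L : Finset ι) (E : ι → ℝ) :
    |∏ l ∈ L, (1 + E l) - 1| ≤ ∏ l ∈ L, (1 + |E l|) - 1 := by
  classical
  induction L using Finset.induction_on with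
  | empty => simp
  | insert a L ha ih =>
    rw [prod_insert ha, prod_insert ha]
    have e : (1 + E a) * ∏ l ∈ L, (1 + E l) - 1 = (1 + E a) * (∏ l ∈ L, (1 + E l) - 1) + E a := by
      ring
    rw [e]
    have h1 : |1 + E a| ≤ 1 + |E a| := by
      refine (abs_add_le _ _).trans ?_
      rw [abs_one]
    calc |(1 + E a) * (∏ l ∈ L, (1 + E l) - 1) + E a|
        ≤ |1 + E a| * |∏ l ∈ L, (1 + E l) - 1| + |E a| := by
          refine (abs_add_le _ _).trans ?_
          rw [abs_mul]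
      _ ≤ (1 + |E a|) * (∏ l ∈ L, (1 + |E l|) - 1) + |E a| := by
          apply add_le_add _ le_rfl
          exact mul_le_mul h1 ih (abs_nonneg _) (by positivity)
      _ = _ := by ring

theorem prod_bound {q : ℕ} (E C : Fin q → ℝ) (hC : ∀ l, 1 ≤ C l) {ε : ℝ} (hε : 0 ≤ ε) (K : ℕ)
    (hE : ∀ l, |E l| ≤ ε + K * (C l - 1)) :
    |∏ l, (1 + E l) - 1| ≤ ∑ l, ((1 + ε) ^ q * C l ^ (K * q) - 1) := by
  refine (abs_prod_sub_one univ E).trans ?_
  have hG : ∀ l, 1 + |E l| ≤ (1 + ε) * C l ^ K := by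
    intro l
    have h1 : 1 + (K : ℝ) * (C l - 1) ≤ C l ^ K := by
      have := one_add_mul_le_pow (show (-2 : ℝ) ≤ C l - 1 by linarith [hC l]) K
      rwa [add_sub_cancel] at this
    have h2 : 0 ≤ (K : ℝ) * (C l - 1) := mul_nonneg (Nat.cast_nonneg K) (by linarith [hC l])
    have h3 := hE l
    nlinarith
  have h1 : ∏ l, (1 + |E l|) ≤ ∏ l, ((1 + ε) * C l ^ K) :=
    prod_le_prod (fun l _ => by positivity) (fun l _ => hG l)
  have h2 := prod_sub_one_le (univ : Finset (Fin q)) (fun l => (1 + ε) * C l ^ K) (fun l _ => by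
    have := one_le_pow₀ (n := K) (hC l)
    nlinarith)
  refine (sub_le_sub_right h1 1).trans (h2.trans (le_of_eq ?_))
  apply sum_congr rfl
  intro l _
  rw [card_univ, Fintype.card_fin, mul_pow, ← pow_mul]

theorem pow_le_lin {x : ℝ} (hx0 : 0 ≤ x) (hx : x ≤ 1) (n : ℕ) : (1 + x) ^ n ≤ 1 + n * x * 2 ^ n := by
  induction n with
  | zero => simp
  | succ n ih =>
    have h1 : (1 : ℝ) ≤ 2 ^ (n + 1) := one_le_pow₀ (by norm_num)
    have h2 : 0 ≤ (n : ℝ) * x * 2 ^ n := by positivity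
    calc (1 + x) ^ (n + 1) = (1 + x) ^ n * (1 + x) := pow_succ _ _
      _ ≤ (1 + n * x * 2 ^ n) * (1 + x) := mul_le_mul_of_nonneg_right ih (by linarith)
      _ = 1 + x + n * x * 2 ^ n + n * x * 2 ^ n * x := by ring
      _ ≤ 1 + x * 2 ^ (n + 1) + n * x * 2 ^ n + n * x * 2 ^ n := by
          have h3 : x ≤ x * 2 ^ (n + 1) := le_mul_of_one_le_right hx0 h1
          have h4 : (n : ℝ) * x * 2 ^ n * x ≤ n * x * 2 ^ n := mul_le_of_le_one_right h2 hx
          linarith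
      _ = 1 + ((n + 1 : ℕ) : ℝ) * x * 2 ^ (n + 1) := by push_cast; ring

theorem card_bx {q : ℕ} (A Xs : Fin q → ℕ) : (bx A Xs).card = ∏ l, Xs l := by
  unfold bx
  rw [Fintype.card_piFinset]
  apply prod_congr rfl
  intro l _
  rw [Nat.card_Ioc]
  omega

/-- **(CORS)** the correlations of the weight `nuS` -/
theorem t_CORS (hG : Pool.Agent.Y871.LW.S_GAVP) (hC : Pool.Agent.Y843.HS.S_COR) :
    Pool.Agent.Y871.LW.S_CORS := by
  classical
  intro q r e M C
  obtain ⟨C1, hC1⟩ := hC r M C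
  refine ⟨C1 + 1, ?_⟩
  intro E hE
  obtain ⟨ε, hεd⟩ : ∃ ε : ℝ, ε = min 1 (E / (2 * ((q : ℝ) ^ 2 * 2 ^ q + 1))) := ⟨_, rfl⟩
  obtain ⟨E2, hE2d⟩ : ∃ E2 : ℝ, E2 = E / (2 * ((q : ℝ) * 2 ^ q * (M : ℝ) ^ 2 + 1)) := ⟨_, rfl⟩
  have hε : 0 < ε := by
    rw [hεd]
    exact lt_min one_pos (by positivity)
  have hε1 : ε ≤ 1 := by rw [hεd]; exact min_le_left _ _
  have hE2 : 0 < E2 := by rw [hE2d]; positivity
  have hεE : (q : ℝ) * (q * ε * 2 ^ q) ≤ E / 2 := by
    have h1 : ε ≤ E / (2 * ((q : ℝ) ^ 2 * 2 ^ q + 1)) := by rw [hεd]; exact min_le_right _ _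
    rw [le_div_iff₀ (by positivity)] at h1
    have h2 : (q : ℝ) * (q * ε * 2 ^ q) * 2 ≤ ε * (2 * ((q : ℝ) ^ 2 * 2 ^ q + 1)) := by
      have : ε * (2 * ((q : ℝ) ^ 2 * 2 ^ q + 1)) = (q : ℝ) * (q * ε * 2 ^ q) * 2 + 2 * ε := by ring
      linarith
    linarith
  have hE2E : (q : ℝ) * (2 ^ q * ((M : ℝ) ^ 2 * E2)) ≤ E / 2 := by
    have h1 : E2 * (2 * ((q : ℝ) * 2 ^ q * (M : ℝ) ^ 2 + 1)) = E := by
      rw [hE2d]
      field_simp
    have h2 : E2 * (2 * ((q : ℝ) * 2 ^ q * (M : ℝ) ^ 2 + 1)) =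
        (q : ℝ) * (2 ^ q * ((M : ℝ) ^ 2 * E2)) * 2 + 2 * E2 := by ring
    linarith
  obtain ⟨g, K, s₀, h⟩ := hC1 ε hε
  obtain ⟨K', hK'⟩ : ∃ K' : ℕ, K' = (K * q) * K * (1 + K) ^ (K * q) := ⟨_, rfl⟩
  obtain ⟨s₁, B₀, X₀, hG'⟩ := hG r e (M ^ 2 * K' * (1 + K') ^ M ^ 2) E2 hE2
  refine ⟨g, max s₀ s₁, B₀, ?_⟩
  intro s hs
  obtain ⟨J₁, hJ⟩ := h s ((le_max_left _ _).trans hs)
  refine ⟨max J₁ X₀, ?_⟩
  intro J X N hJJ hX hN hNp A Xs hXs Z hZ θ hθ φ hφ
  intro Y _ _ I _ hI f hind _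
  have : Fact N.Prime := ⟨hNp⟩
  have : NeZero N := ⟨hNp.ne_zero⟩
  have hRpos : 1 ≤ 2 ^ 2 ^ J := Nat.one_le_two_pow
  have hRX : 2 ^ 2 ^ J ≤ X := by
    refine le_trans ?_ hX
    exact Nat.le_self_pow (by omega) _
  have hC1X : (2 ^ 2 ^ J) ^ C1 ≤ X := by
    refine le_trans ?_ hX
    exact Nat.pow_le_pow_right hRpos (by omega)
  have hX0 : X₀ ≤ X := by
    have h1 : J < 2 ^ J := Nat.lt_two_pow_self
    have h2 : 2 ^ J < 2 ^ 2 ^ J := Nat.lt_two_pow_self
    have h3 := (le_max_right J₁ X₀).trans hJJ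
    omega
  have hX1 : 1 ≤ X := hRpos.trans hRX
  have eI : I ≃ Fin (Fintype.card I) := Fintype.equivFin I
  obtain ⟨ν, hν⟩ : ∃ ν : Fin q → ℕ → ℝ, ν = fun l =>
    nu (Z l) s (2 ^ 2 ^ (J - g)) (2 ^ 2 ^ J) (θ l) := ⟨_, rfl⟩
  obtain ⟨P, hP⟩ : ∃ P : Y → ℝ, P = fun y => (∑ x ∈ bx A Xs, ∏ i,
    nuS Z s (2 ^ 2 ^ (J - g)) (2 ^ 2 ^ J) θ φ N x (f i y)) / (bx A Xs).card - 1 := ⟨_, rfl⟩
  have h1 : (∑ x ∈ bx A Xs, av (fun y : Y => ∏ i,
      nuS Z s (2 ^ 2 ^ (J - g)) (2 ^ 2 ^ J) θ φ N x (f i y))) / (bx A Xs).card - 1 = av P := by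
    rw [hP, av_sub, av_const, ← av_sum]
    congr 1
    simp_rw [div_eq_inv_mul]
    rw [av_mul]
  rw [h1]
  refine (av_abs_le P).trans ?_
  have h2 : ∀ y, |P y| ≤ ∑ l, ((1 + ε) ^ q *
      Coll K' (Z l) s (2 ^ 2 ^ J) (fun i => φ l (rp (f (eI.symm i) y))) - 1) := by
    intro y
    have h3 : ∑ x ∈ bx A Xs, ∏ i, nuS Z s (2 ^ 2 ^ (J - g)) (2 ^ 2 ^ J) θ φ N x (f i y) =
        ∏ l, ∑ x ∈ Ioc (A l) (A l + Xs l), ∏ i, ν l (x + φ l (rp (f (eI.symm i) y))) := by
      rw [prod_univ_sum]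
      apply sum_congr rfl
      intro x _
      have h4 : ∀ l, ∏ i, ν l (x l + φ l (rp (f (eI.symm i) y))) =
          ∏ i, ν l (x l + φ l (rp (f i y))) := fun l =>
        Equiv.prod_comp eI.symm (fun i => ν l (x l + φ l (rp (f i y))))
      simp_rw [h4]
      rw [prod_comm, hν]
      rfl
    have h5 : P y = ∏ l, (1 + ((∑ x ∈ Ioc (A l) (A l + Xs l),
        ∏ i, ν l (x + φ l (rp (f (eI.symm i) y)))) / (Xs l : ℝ) - 1)) - 1 := by
      rw [hP]
      show (∑ x ∈ bx A Xs, ∏ i, nuS Z s (2 ^ 2 ^ (J - g)) (2 ^ 2 ^ J) θ φ N x (f i y)) /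
        (bx A Xs).card - 1 = _
      rw [h3, card_bx, Nat.cast_prod, ← prod_div_distrib]
      congr 1
      apply prod_congr rfl
      intro l _
      ring
    rw [h5]
    refine (prod_bound _ (fun l => Coll K (Z l) s (2 ^ 2 ^ J)
      (fun i => φ l (rp (f (eI.symm i) y)))) (fun l => one_le_Coll K _) hε.le K (fun l => ?_)).trans ?_
    · rw [hν]
      exact hJ J (A l) (Xs l) ((le_max_left _ _).trans hJJ) (hC1X.trans (hXs l)) (Z l) (hZ l) (θ l)
        (hθ l) (Fintype.card I) hI (fun i => φ l (rp (f (eI.symm i) y)))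
    · apply sum_le_sum
      intro l _
      apply sub_le_sub_right
      apply mul_le_mul_of_nonneg_left _ (by positivity)
      rw [hK']
      exact pow_Coll_le K (K * q) _
  refine (av_mono h2).trans ?_
  have hQ1 : (1 + ε) ^ q ≤ 1 + q * ε * 2 ^ q := pow_le_lin hε.le hε1 q
  have hQ2 : (1 + ε) ^ q ≤ 2 ^ q := pow_le_pow_left₀ (by linarith) (by linarith) q
  have hlog : Real.log X ^ B₀ ≤ N := hN
  have h6 : ∀ l, av (fun y : Y => (1 + ε) ^ q *
      Coll K' (Z l) s (2 ^ 2 ^ J) (fun i => φ l (rp (f (eI.symm i) y))) - 1) ≤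
      q * ε * 2 ^ q + 2 ^ q * ((M : ℝ) ^ 2 * E2) := by
    intro l
    have h7 := av_CollS (Z := Z l) (s := s) (R := 2 ^ 2 ^ J) K' hI (fun i => f (eI.symm i))
      (fun i j hij => hind _ _ (fun h => hij (eI.symm.injective h))) (φ l) (E := E2)
      (fun d => hG' s (2 ^ 2 ^ J) X N ((le_max_right _ _).trans hs) hX0 hRX hlog (Z l) (hZ l) (φ l)
        (hφ l) d)
    have h8 : (fun y : Y => (1 + ε) ^ q *
        Coll K' (Z l) s (2 ^ 2 ^ J) (fun i => φ l (rp (f (eI.symm i) y))) - 1) =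
        fun y : Y => ((1 + ε) ^ q - 1) + (1 + ε) ^ q *
          (Coll K' (Z l) s (2 ^ 2 ^ J) (fun i => φ l (rp (f (eI.symm i) y))) - 1) := by
      funext y
      ring
    rw [h8, av_add, av_const, av_mul]
    have h9 : 0 ≤ av (fun y : Y =>
        Coll K' (Z l) s (2 ^ 2 ^ J) (fun i => φ l (rp (f (eI.symm i) y))) - 1) :=
      av_nonneg fun y => by
        linarith [one_le_Coll (Z := Z l) (s := s) (R := 2 ^ 2 ^ J) K'
          (fun i => φ l (rp (f (eI.symm i) y)))]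
    have h10 : (1 + ε) ^ q * av (fun y : Y =>
        Coll K' (Z l) s (2 ^ 2 ^ J) (fun i => φ l (rp (f (eI.symm i) y))) - 1) ≤
        2 ^ q * ((M : ℝ) ^ 2 * E2) := mul_le_mul hQ2 h7 h9 (by positivity)
    linarith
  rw [av_sum]
  calc ∑ l : Fin q, av (fun y : Y => (1 + ε) ^ q *
        Coll K' (Z l) s (2 ^ 2 ^ J) (fun i => φ l (rp (f (eI.symm i) y))) - 1)
      ≤ ∑ _l : Fin q, (q * ε * 2 ^ q + 2 ^ q * ((M : ℝ) ^ 2 * E2)) := sum_le_sum fun l _ => h6 l
    _ = (q : ℝ) * (q * ε * 2 ^ q) + (q : ℝ) * (2 ^ q * ((M : ℝ) ^ 2 * E2)) := by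
        rw [sum_const, card_univ, Fintype.card_fin, nsmul_eq_mul]
        ring
    _ ≤ E := by linarith

end Pool.Agent.Y813.LW
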